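import Pool.Agent.E8helper69.AP.J

/-!
# Comparison of absolute values on the edge of the half-plane of convergence

`X` is a smooth projective variety over a number field `K`, and `L(s)` is the Euler product over the
primes outside a set `S` of its `i`-th L-function.  Let `E_1, …, E_r` be Euler products over number
fields with local roots of absolute value at most `Nv^{w_k/2}` (Dedekind zeta functions, Artin and
Hecke L-functions, tempered automorphic L-functions, L-functions of other varieties), and let `a_0`,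
`a_1, …, a_r` be integers.  No continuation is assumed.  If `|L|^{a_0} ≤ ∏ |E_k|^{a_k}` at almost all
points of arbitrarily long segments of the edge lines, then `L^{a_0} = ∏ E_k^{a_k}` identically.
-/

set_option autoImplicit false

namespace Pool.Agent.Results.MP_039d94_nt.EdgeComparisonH69

open NumberField IsDedekindDomain Filter Topology MeasureTheory
open Pool.Agent.TH958.BV (IsFrobenius)
open Pool.Agent.E8helper69.AP (LFun truncatedModulus modulus Recurrent)

theorem result (K : Type) [Field K] [NumberField K] (n : ℕ)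
    (X : Set (MvPolynomial (Fin n) (𝓞 K))) (d i N : ℕ) (S : Set (HeightOneSpectrum (𝓞 K)))
    (α : HeightOneSpectrum (𝓞 K) → Fin N → ℂ) (hα : ∀ v, v ∉ S → IsFrobenius X d i v (α v))
    (r : ℕ) (F : Fin r → Type) [∀ k, Field (F k)] [∀ k, NumberField (F k)] (m : Fin r → ℕ)
    (w : Fin r → ℝ) (T : ∀ k, Set (HeightOneSpectrum (𝓞 (F k))))
    (γ : ∀ k, HeightOneSpectrum (𝓞 (F k)) → Fin (m k) → ℂ)
    (hγ : ∀ k v, v ∉ T k → ∀ j, ‖γ k v j‖ ≤ (Ideal.absNorm v.asIdeal : ℝ) ^ (w k / 2))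
    (a₀ : ℤ) (a : Fin r → ℤ) :
    (dimH {τ : ℝ | ¬ (0 < modulus S α ((i : ℝ) / 2 + 1) τ ∧
        Tendsto (truncatedModulus S α ((i : ℝ) / 2 + 1) τ) atTop
          (𝓝 (modulus S α ((i : ℝ) / 2 + 1) τ)))} = 0 ∧
      ∀ k, dimH {τ : ℝ | ¬ (0 < modulus (T k) (γ k) (w k / 2 + 1) τ ∧
        Tendsto (truncatedModulus (T k) (γ k) (w k / 2 + 1) τ) atTop
          (𝓝 (modulus (T k) (γ k) (w k / 2 + 1) τ)))} = 0) ∧
    ((∀ s : ℂ, 1 < s.re → LFun S α (s + (i : ℂ) / 2) ^ a₀ =
        ∏ k, LFun (T k) (γ k) (s + (w k : ℂ) / 2) ^ a k) ∨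
      ∃ κ : ℝ, 1 < κ ∧
        Recurrent {τ | κ * ∏ k, modulus (T k) (γ k) (w k / 2 + 1) τ ^ a k <
          modulus S α ((i : ℝ) / 2 + 1) τ ^ a₀} ∧
        Recurrent {τ | κ * modulus S α ((i : ℝ) / 2 + 1) τ ^ a₀ <
          ∏ k, modulus (T k) (γ k) (w k / 2 + 1) τ ^ a k}) := by
  have hα' : ∀ v, v ∉ S → ∀ j, ‖α v j‖ ≤ (Ideal.absNorm v.asIdeal : ℝ) ^ ((i : ℝ) / 2) := by
    intro v hv j
    obtain ⟨β, h1, h2, h3⟩ := hα v hv
    refine (h2 i (α v j) ?_).le
    rw [h1]
    exact Multiset.mem_map_of_mem _ (Finset.mem_univ_val j)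
  refine ⟨⟨Pool.Agent.E8helper69.AP.modulus_spec hα',
    fun k => Pool.Agent.E8helper69.AP.modulus_spec (hγ k)⟩, ?_⟩
  have h := Pool.Agent.E8helper69.AP.compare hα' hγ a₀ a
  have e : ((((i : ℕ) : ℝ)) : ℂ) = (i : ℂ) := by push_cast; rfl
  rw [e] at h
  exact h

end Pool.Agent.Results.MP_039d94_nt.EdgeComparisonH69
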