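import Pool.Agent.E8helper17.MC.H

/-!
# The continuation of `L(Hⁱ(X), s)` is decided by its modulus on the edge

`X` is a smooth projective variety of dimension `d` over a number field `K` (for example `K = ℚ`) and
`i ≤ 2d`.  The theorem reduces the meromorphic continuation of `L(Hⁱ(X), s)`, near points of the edge
`Re s = i/2 + 1` of absolute convergence, to a larger half-plane, to the whole plane, and with poles as
in the question Q1, to a property of the absolute value `m(τ)` of the Euler product at the points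
`i/2 + 1 + iτ` of the edge, a real function of one real variable, defined for almost all `τ` as the
limit of finite products.

The definitions of `IsEulerSystem`, `localFactor`, `LFun` and `edgePoint` are in
`Pool/Agent/TH958/BV/Defs.lean`.
-/

set_option autoImplicit false

namespace Pool.Agent.Results.MP_039d94_nt.ModulusCriterionH17

open NumberField IsDedekindDomain MeasureTheory Filter Topology Polynomial ComplexConjugate
open Pool.Agent.TH958.BV (IsEulerSystem localFactor LFun edgePoint)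

/-- `|∏_{Nv < x} L_v(Hⁱ(X), i/2 + 1 + iτ)|`, the absolute value of the Euler product over the primes of
norm less than `x` at a point of the edge. -/
noncomputable def truncatedModulus {K : Type} [Field K] [NumberField K]
    (B : HeightOneSpectrum (𝓞 K) → ℂ[X]) (i : ℕ) (τ : ℝ) (x : ℕ) : ℝ :=
  ∏ᶠ v ∈ {v : HeightOneSpectrum (𝓞 K) | Ideal.absNorm v.asIdeal < x},
    ‖localFactor B v (edgePoint i τ)‖

/-- The union of the half-plane `Re s > i/2 + 1` and of the set of the points `i/2 + 1 + iw`,
`w ∈ U`. -/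
def domain (i : ℕ) (U : Set ℂ) : Set ℂ :=
  {s : ℂ | (i : ℝ) / 2 + 1 < s.re ∨ ∃ w ∈ U, s = (i : ℂ) / 2 + 1 + Complex.I * w}

/-- `Λ` is a meromorphic continuation of `L(Hⁱ(X), s)` from the half-plane `Re s > i/2 + 1` to
`domain i U`. -/
def Continuation {K : Type} [Field K] [NumberField K] (B : HeightOneSpectrum (𝓞 K) → ℂ[X])
    (i : ℕ) (U : Set ℂ) (Λ : ℂ → ℂ) : Prop :=
  (∀ s ∈ domain i U, MeromorphicAt Λ s) ∧ ∀ s : ℂ, (i : ℝ) / 2 + 1 < s.re → Λ s = LFun B s

/-- `G` is meromorphic on `U` and agrees with `m²` at almost all real points of `U`. -/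
def Extension (m : ℝ → ℝ) (U : Set ℂ) (G : ℂ → ℂ) : Prop :=
  (∀ w ∈ U, MeromorphicAt G w) ∧ ∀ᵐ τ : ℝ, (τ : ℂ) ∈ U → G τ = ((m τ ^ 2 : ℝ) : ℂ)

/-- **The modulus criterion.**  Let `X` be a smooth projective variety of dimension `d` over a number
field `K`, let `i ≤ 2d`, and let `B_v` be the Euler factors of `L(Hⁱ(X), s)`, with the factors at the
finitely many bad primes arbitrary polynomials `≠ 0` with algebraic coefficients.  There is a function
`m` on the real line such that `|∏_{Nv < x} L_v(i/2 + 1 + iτ)|` tends to `m(τ) > 0` as `x → ∞`, for all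
real `τ` outside a set of Hausdorff dimension `0`, and such that for every open set `U ⊆ ℂ` which is
symmetric with respect to the real line (for instance a small disc with real centre, a strip
`|Im w| < δ`, or `ℂ`):

1. `L(Hⁱ(X), s)` has a meromorphic continuation to `domain i U` if and only if `m²` agrees, at almost
   all real points of `U`, with a function `G` meromorphic on `U`;
2. then at every real point `τ` of `U` the order of `G` is twice the order of the continuation at
   `i/2 + 1 + iτ`;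
3. if no Euler factor has a pole with `Re s > i/2 + 1` then `L(Hⁱ(X), s)` has a meromorphic
   continuation to `domain i U` which is holomorphic but for at most a pole at `i/2 + 1`, occurring only
   for even `i`, if and only if `m²` agrees, at almost all real points of `U`, with a function
   meromorphic on `U` which is holomorphic but for at most a pole at `0`, occurring only for even `i`.

For `U = ℂ` the last statement is a criterion for the conclusion of the question Q1. -/
theorem result (K : Type) [Field K] [NumberField K] (n : ℕ)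
    (X : Set (MvPolynomial (Fin n) (𝓞 K))) (d i N : ℕ) (hi : i ≤ 2 * d)
    (B : HeightOneSpectrum (𝓞 K) → ℂ[X]) (hB : IsEulerSystem X d i N B) :
    ∃ m : ℝ → ℝ,
      (∃ T : Set ℝ, dimH T = 0 ∧ ∀ τ : ℝ, τ ∉ T →
        0 < m τ ∧ Tendsto (truncatedModulus B i τ) atTop (𝓝 (m τ))) ∧
      ∀ U : Set ℂ, IsOpen U → (∀ w ∈ U, conj w ∈ U) →
        ((∃ Λ, Continuation B i U Λ) ↔ ∃ G, Extension m U G) ∧
        (∀ Λ G, Continuation B i U Λ → Extension m U G → ∀ τ : ℝ, (τ : ℂ) ∈ U →
          meromorphicOrderAt G (τ : ℂ) = 2 * meromorphicOrderAt Λ (edgePoint i τ)) ∧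
        ((∀ (v : HeightOneSpectrum (𝓞 K)) (s : ℂ), (i : ℝ) / 2 + 1 < s.re →
            (B v).eval ((Ideal.absNorm v.asIdeal : ℂ) ^ (-s)) ≠ 0) →
          ((∃ Λ, Continuation B i U Λ ∧
              ∀ s ∈ domain i U, s ≠ (i : ℂ) / 2 + 1 ∨ Odd i → AnalyticAt ℂ Λ s) ↔
            ∃ G, Extension m U G ∧ ∀ w ∈ U, w ≠ 0 ∨ Odd i → AnalyticAt ℂ G w)) := by
  refine ⟨Pool.Agent.E8helper17.MC.emod B i, ⟨Pool.Agent.TH958.BV.TT,
    Pool.Agent.TH958.BV.dimH_TT, fun τ hτ => ?_⟩, fun U hU hs => ⟨?_, ?_, fun hne => ?_⟩⟩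
  · obtain ⟨h1, h2, _⟩ := Pool.Agent.E8helper17.MC.emod_spec hi hB hτ
    exact ⟨h1, h2⟩
  · exact Pool.Agent.E8helper17.MC.global_s hi hB hU hs
  · intro Λ G hΛ hG τ hτ
    refine (Pool.Agent.E8helper17.MC.local_s hi hB τ).2 Λ G ⟨hΛ.1 _ (Or.inr ⟨_, hτ, ?_⟩),
      Eventually.of_forall hΛ.2⟩ ⟨hG.1 _ hτ, ?_⟩
    · unfold Pool.Agent.TH958.BV.edgePoint
      push_cast
      ring
    · obtain ⟨r, hr, hsub⟩ := Metric.isOpen_iff.1 hU _ hτ
      refine ⟨r, hr, ?_⟩
      filter_upwards [hG.2] with t h1 h2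
      refine h1 (hsub ?_)
      rw [Metric.mem_ball, dist_eq_norm, ← Complex.ofReal_sub, Complex.norm_real,
        Real.norm_eq_abs]
      exact h2
  · have h := Pool.Agent.E8helper17.MC.q1_s hi hB hne hU hs
    constructor
    · rintro ⟨Λ, ⟨h1, h2⟩, h3⟩
      obtain ⟨G, g1, g2⟩ := h.1 ⟨Λ, fun s hsD => ⟨h1 s hsD, h3 s hsD⟩, h2⟩
      exact ⟨G, ⟨fun w hw => (g1 w hw).1, g2⟩, fun w hw => (g1 w hw).2⟩
    · rintro ⟨G, ⟨h1, h2⟩, h3⟩
      obtain ⟨Λ, g1, g2⟩ := h.2 ⟨G, fun s hsD => ⟨h1 s hsD, h3 s hsD⟩, h2⟩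
      exact ⟨Λ, ⟨fun w hw => (g1 w hw).1, g2⟩, fun w hw => (g1 w hw).2⟩

end Pool.Agent.Results.MP_039d94_nt.ModulusCriterionH17
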