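import Pool.Agent.E8helper75.SG.Main

/-!
# The L-functions of all projective varieties are L-functions of hyperplane sections of Segre varieties

`X` is a projective scheme over `ℤ`, given by homogeneous equations of any degrees, for instance a model
of a smooth projective variety over `ℚ`.  An array `T = (T_{abc})` of integers defines the hyperplane
section `W_T = {∑ T_{abc} x_a y_b z_c = 0}` of the Segre variety, the product of the three projective
spaces with the coordinates `x_a`, `y_b` and `z_c`.  The theorem says that for every `X` there is a `T`
such that for every `i` the L-function of `H^i(X)` is, up to the shift `s ↦ s - m` and the factor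
`ζ(s - i/2 - m)^t`, which is `1` for odd `i`, the L-function of `H^{i+2m}(W_T)`.  So the question Q1 for
all smooth projective varieties and all odd `i`, and the meromorphic continuation for all `i`, is
equivalent to the same question for these hyperplane sections, which are defined by a single trilinear
form.  (Two factors do not suffice: the L-functions of the hyperplane sections of a product of two
projective spaces are products of shifts of the Riemann zeta function.)

The variety `W_T` has singularities in general, but it is as good as a smooth variety for this purpose: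
the number of its points is the alternating sum of the powers of numbers of absolute values `p^{k/2}`,
`k ≥ 0`, the eigenvalues of Frobenius on `H^k(W_T)`.

The definitions are in `Pool/Agent/E8helper75/SG/Defs.lean`.
-/

set_option autoImplicit false

namespace Pool.Agent.Results.MP_039d94_nt.SegreSectionsH75

open Finset Pool.Agent.E8helper75.SG

/-- **Hyperplane sections of Segre varieties.**  Let `X` be a projective scheme over `ℤ`, given by
homogeneous equations.  There are an `a × a × (m + 1)` array `T` of integers and the hyperplane section
`W = {∑ T_{abc} x_a y_b z_c = 0}` of the Segre variety `ℙ^{a-1} × ℙ^{a-1} × ℙ^m` with the following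
properties.

1. For every finite field with `q` elements
`#W = #(ℙ^{a-1} × ℙ^{a-1} × ℙ^{m-1}) + q^m #X`
(`cone` is `q - 1` times the number of points).

2. Let `∏_p ∏_{z ∈ β_p} (1 - z p^{-s})⁻¹` be the L-function of `H^i(X)`, with arbitrary Euler factors at
finitely many primes.  Then the numbers `p^m z`, `z ∈ β_p`, and, if `i` is even, the number
`p^{i/2 + m}`, repeated `t = rank H^{i+2m}(ℙ^{a-1} × ℙ^{a-1} × ℙ^{m-1})` times, are the eigenvalues of
Frobenius on `H^{i+2m}(W)`, for almost all `p`.  For `Re s > i/2 + m + 1` their L-function is
`L(H^i(X), s - m)` for odd `i` and `L(H^i(X), s - m) ζ(s - i/2 - m)^t` for even `i`.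

3. If `i` is odd then the statement of Q1 holds for `(X, i)` if and only if it holds for
`(W, i + 2m)`.  If `i` is even it holds for `(W, i + 2m)` if it holds for `(X, i)`.

4. For all `i`, the L-function of `H^i(X)` has a meromorphic continuation to `ℂ` if and only if the
L-function of `H^{i+2m}(W)` has one. -/
theorem result (n : ℕ) (X : Finset (MvPolynomial (Fin (n + 1)) ℤ))
    (hX : ∀ f ∈ X, ∃ e, f.IsHomogeneous e) :
    ∃ (a m : ℕ) (T : Fin a → Fin a → Fin (m + 1) → ℤ), 0 < a ∧
      (∀ (κ : Type) [Field κ] [Finite κ], cone (segreSection T) κ =
        (Nat.card κ - 1) * ((∑ j ∈ range a, Nat.card κ ^ j) ^ 2 * ∑ j ∈ range m, Nat.card κ ^ j) +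
          Nat.card κ ^ m * cone (X : Set (MvPolynomial (Fin (n + 1)) ℤ)) κ) ∧
      ∀ (i : ℕ) (β : Nat.Primes → Multiset ℂ),
        IsSystem (X : Set (MvPolynomial (Fin (n + 1)) ℤ)) i β →
          IsSystem (segreSection T) (i + 2 * m) (shift a m i β) ∧
          (∀ s : ℂ, ((i + 2 * m : ℕ) : ℝ) / 2 + 1 < s.re → LFun (shift a m i β) s =
            LFun β (s - m) * if Even i then
              riemannZeta (s - ((i / 2 + m : ℕ) : ℂ)) ^ rankTate a m (i / 2 + m) else 1) ∧
          (Odd i → (Q1 i β ↔ Q1 (i + 2 * m) (shift a m i β))) ∧
          (Q1 i β → Q1 (i + 2 * m) (shift a m i β)) ∧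
          (Continues i β ↔ Continues (i + 2 * m) (shift a m i β)) := by
  obtain ⟨a, m, T, ha, hT⟩ := main_fin X hX
  refine ⟨a, m, T, ha, fun κ _ _ => count_nat ?_ (hT κ), fun i β h => ?_⟩
  · have : Nontrivial κ := inferInstance
    exact Finite.one_lt_card
  · obtain ⟨h1, h2, h3⟩ := continuation h a m
    exact ⟨system hT h, fun s hs => LFun_shift h a m hs, h1, h2, h3⟩

end Pool.Agent.Results.MP_039d94_nt.SegreSectionsH75
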