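import Pool.Agent.E8helper17.FZ.Bil

/-!
# Continuation of all zeta functions from trilinear forms with coefficients `0` and `1`

The zeta function of a system of polynomial equations with integral coefficients (or of a scheme of
finite type over `ℤ`) with `N(𝔽_q)` solutions in `𝔽_q` is
`∏_p exp (∑_{k ≥ 1} N(𝔽_{p^k}) p ^ (- k s) / k)`.  For a smooth projective variety over `ℚ` this is, up
to finitely many Euler factors, `∏_i L(Hⁱ(X), s) ^ ((-1) ^ i)`, and conversely `L(H¹)` of a curve or
`L(Hⁿ)` of a smooth complete intersection of dimension `n` is, up to finitely many factors, the series
of `± (N(𝔽_q) - A(q))`, `A` a polynomial.  The theorem shows that the meromorphic continuation of all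
these functions follows from that for very small families of hypersurfaces of any fixed degree `d ≥ 3`:
multilinear forms all of whose coefficients are `0` or `1`, or linear sections of the Fermat
hypersurfaces (for the Fermat hypersurfaces themselves the continuation is due to Weil).

The definitions of `points`, `Z`, `Continues`, `FromPoints`, `tensorForm` and `powerForm` are in
`Pool/Agent/E8helper17/FZ/Defs.lean`.

Proof: a division of the numbers `N(𝔽_q)` by a monic polynomial `B(q)` is possible within the series
that have a continuation, because it means to solve a functional equation
`L(s) = R(s) ∏ j, L(s + j) ^ c j`, `j ≥ 1`, which continues `L` to the left step by step.  With such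
divisions every number of solutions is expressed by numbers of zeros of cubic forms (circuits, a
Lagrange multiplier for each equation, homogenisation), of trilinear forms (a pair of proportional
vectors in place of one vector), of trilinear forms with coefficients `0` and `1` (a linear condition
`ℓ = 0` is imposed by adding `y z ℓ` to the form) and, by polarisation, of sums of `d`-th powers.
-/

set_option autoImplicit false

namespace Pool.Agent.Results.MP_039d94_nt.UniversalFamiliesH17

open MvPolynomial Pool.Agent.E8helper17.FZ

/-- **Universal families for the continuation of zeta functions.**  Let `d ≥ 3` and `P ≥ 0`; all the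
Euler products are taken over the primes `p > P`.  The following are equivalent:

1. `Z P N` has a meromorphic continuation to `ℂ` for all the functions `N` with
   `B(q) N(K) = ∑ i, A i (q) * #{solutions in K of the system f i}` for the finite fields `K` with `q`
   elements and characteristic `> P`, where `B` is monic and the `f i` are systems of polynomial
   equations over `ℤ`;
2. the zeta functions of all systems of polynomial equations over `ℤ` have a meromorphic continuation;
3. the zeta functions of all the equations `∑_{s ∈ S} x_{1, s 1} ⋯ x_{d, s d} = 0`, for a set `S` of
   `d`-tuples, have a meromorphic continuation.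

If `P ≥ d` then they are equivalent to

4. the zeta functions of all the equations `∑ j, ± (∑ i, L j i * X i) ^ d = 0`, with a matrix `L` of
   integers, have a meromorphic continuation. -/
theorem result (d P : ℕ) (hd : 3 ≤ d) :
    List.TFAE [
      ∀ N : (K : Type) → [Field K] → ℤ, FromPoints P N → Continues P N,
      ∀ (n r : ℕ) (f : Fin r → MvPolynomial (Fin n) ℤ),
        Continues P (fun K _ => (points f K : ℤ)),
      ∀ (n : ℕ) (S : Finset (Fin d → Fin n)),
        Continues P (fun K _ => (points (fun _ : Fin 1 => tensorForm S) K : ℤ))] ∧
    (d ≤ P →
      ((∀ (n r : ℕ) (f : Fin r → MvPolynomial (Fin n) ℤ),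
          Continues P (fun K _ => (points f K : ℤ))) ↔
        ∀ (n a : ℕ) (ε : Fin a → ℤˣ) (L : Fin a → Fin n → ℤ),
          Continues P (fun K _ => (points (fun _ : Fin 1 => powerForm d ε L) K : ℤ)))) := by
  refine ⟨?_, fun hP => ⟨fun h n a ε L => h n 1 _, fun h n r f => HP.all h hd hP f⟩⟩
  tfae_have 1 → 2 := fun h n r f => h _ (fromPoints_points P f)
  tfae_have 2 → 1 := fun h N hN => from_all h N hN
  tfae_have 3 → 2 := fun h n r f => (HT.col3 hd h).all f
  tfae_have 2 → 3 := fun h n S => by
    classical
    let e := Fintype.equivFin (Fin d × Fin n)
    refine continues_congr (h (Fintype.card (Fin d × Fin n)) 1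
      (fun _ => rename e (tensorForm S))) fun K _ _ _ => ?_
    congr 1
    unfold points
    refine Nat.card_congr ((Equiv.arrowCongr e.symm (Equiv.refl K)).subtypeEquiv fun x => ?_)
    rw [forall_const, forall_const, aeval_rename]
    rfl
  tfae_finish

end Pool.Agent.Results.MP_039d94_nt.UniversalFamiliesH17
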